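import Mathlib
import Pool.Agent.V11332.CE12

set_option autoImplicit false

namespace Pool.Agent.Results.MP_4e5648_mp.CircleEllipseTen

open Pool.Agent.V11332.CE

/-- first scalar product -/
theorem aux1 (F u₁ w₁ u₂ w₂ : EuclideanSpace ℝ (Fin 3)) (x1 x2 y1 y2 g1 g2 : ℝ)
    (hu : ‖u₁‖ = 1) (hw : ‖w₁‖ = 1) (huw : inner ℝ u₁ w₁ = 0) :
    inner ℝ (F + x1 • u₁ + x2 • w₁ - (F + y1 • u₂ + y2 • w₂)) (g1 • u₁ + g2 • w₁) =
      x1*g1+x2*g2 - y1*(g1*inner ℝ u₁ u₂+g2*inner ℝ w₁ u₂) - y2*(g1*inner ℝ u₁ w₂+g2*inner ℝ w₁ w₂) := by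
  have huu : inner ℝ u₁ u₁ = (1:ℝ) := by rw [real_inner_self_eq_norm_sq, hu]; norm_num
  have hww : inner ℝ w₁ w₁ = (1:ℝ) := by rw [real_inner_self_eq_norm_sq, hw]; norm_num
  have hwu : inner ℝ w₁ u₁ = (0:ℝ) := by rw [real_inner_comm]; exact huw
  have e : F + x1 • u₁ + x2 • w₁ - (F + y1 • u₂ + y2 • w₂) = x1 • u₁ + x2 • w₁ - y1 • u₂ - y2 • w₂ := by
    abel
  rw [e]
  simp only [inner_sub_left, inner_add_left, inner_add_right, real_inner_smul_left,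
    real_inner_smul_right, huu, hww, huw, hwu]
  rw [real_inner_comm u₁ u₂, real_inner_comm w₁ u₂, real_inner_comm u₁ w₂, real_inner_comm w₁ w₂]
  ring

theorem aux2 (F u₁ w₁ u₂ w₂ : EuclideanSpace ℝ (Fin 3)) (x1 x2 y1 y2 g1 g2 : ℝ)
    (hu : ‖u₂‖ = 1) (hw : ‖w₂‖ = 1) (huw : inner ℝ u₂ w₂ = 0) :
    inner ℝ (F + x1 • u₁ + x2 • w₁ - (F + y1 • u₂ + y2 • w₂)) (g1 • u₂ + g2 • w₂) =
      x1*(g1*inner ℝ u₁ u₂+g2*inner ℝ u₁ w₂) + x2*(g1*inner ℝ w₁ u₂+g2*inner ℝ w₁ w₂) - y1*g1 - y2*g2 := by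
  have huu : inner ℝ u₂ u₂ = (1:ℝ) := by rw [real_inner_self_eq_norm_sq, hu]; norm_num
  have hww : inner ℝ w₂ w₂ = (1:ℝ) := by rw [real_inner_self_eq_norm_sq, hw]; norm_num
  have hwu : inner ℝ w₂ u₂ = (0:ℝ) := by rw [real_inner_comm]; exact huw
  have e : F + x1 • u₁ + x2 • w₁ - (F + y1 • u₂ + y2 • w₂) = x1 • u₁ + x2 • w₁ - y1 • u₂ - y2 • w₂ := by
    abel
  rw [e]
  simp only [inner_sub_left, inner_add_left, inner_add_right, real_inner_smul_left,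
    real_inner_smul_right, huu, hww, huw, hwu]
  ring

/-- For an ellipse of eccentricity strictly between 0 and 1 and a circle centred at one of its foci, in 3-space,
the squared distance has at most ten stationary points. -/
theorem result :
    ∀ (F u₁ w₁ u₂ w₂ : EuclideanSpace ℝ (Fin 3)) (a e R : ℝ)
      (P Q : ℝ → EuclideanSpace ℝ (Fin 3)),
      0 < a → 0 < e → e < 1 → 0 < R →
      ‖u₁‖ = 1 → ‖w₁‖ = 1 → inner ℝ u₁ w₁ = 0 →
      ‖u₂‖ = 1 → ‖w₂‖ = 1 → inner ℝ u₂ w₂ = 0 →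
      (∀ s : ℝ, P s = F + (a * (e + Real.cos s)) • u₁
          + (a * Real.sqrt (1 - e ^ 2) * Real.sin s) • w₁) →
      (∀ t : ℝ, Q t = F + (R * Real.cos t) • u₂ + (R * Real.sin t) • w₂) →
      ({x : EuclideanSpace ℝ (Fin 3) × EuclideanSpace ℝ (Fin 3) |
          ∃ s t : ℝ, x = (P s, Q t) ∧ deriv (fun σ : ℝ => ‖P σ - Q t‖ ^ 2) s = 0 ∧
            deriv (fun τ : ℝ => ‖P s - Q τ‖ ^ 2) t = 0}).Finite ∧
      ({x : EuclideanSpace ℝ (Fin 3) × EuclideanSpace ℝ (Fin 3) |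
          ∃ s t : ℝ, x = (P s, Q t) ∧ deriv (fun σ : ℝ => ‖P σ - Q t‖ ^ 2) s = 0 ∧
            deriv (fun τ : ℝ => ‖P s - Q τ‖ ^ 2) t = 0}).ncard ≤ 10 := by
  intro F u₁ w₁ u₂ w₂ a e R P Q ha he he1 hR hu₁ hw₁ huw₁ hu₂ hw₂ huw₂ hP hQ
  set h : ℝ := Real.sqrt (1 - e ^ 2) with hh
  have h1e : 0 < 1 - e^2 := by nlinarith
  have hh0 : 0 < h := Real.sqrt_pos.2 h1e
  have hh2 : h^2 = 1-e^2 := Real.sq_sqrt h1e.le
  obtain ⟨N, hN⟩ := frame u₂ w₂ hu₂ hw₂ huw₂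
  have huu : inner ℝ u₁ u₁ = (1:ℝ) := by rw [real_inner_self_eq_norm_sq, hu₁]; norm_num
  have hww : inner ℝ w₁ w₁ = (1:ℝ) := by rw [real_inner_self_eq_norm_sq, hw₁]; norm_num
  have D : Dat (inner ℝ u₁ u₂) (inner ℝ w₁ u₂) (inner ℝ u₁ w₂) (inner ℝ w₁ w₂) (inner ℝ u₁ N)
      (inner ℝ w₁ N) e h (R/a) := by
    refine ⟨he, he1, hh0, hh2, by positivity, ?_, ?_, ?_⟩
    · have := hN u₁ u₁; rw [huu] at this; linarith
    · have := hN w₁ w₁; rw [hww] at this; linarith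
    · have := hN u₁ w₁; rw [huw₁] at this; linarith
  have hcore := core D
  -- derivatives
  have dP : ∀ s : ℝ, HasDerivAt P ((-(a * Real.sin s)) • u₁ + (a * h * Real.cos s) • w₁) s := by
    intro s
    have e1 : P = fun s => F + (a * (e + Real.cos s)) • u₁ + (a * h * Real.sin s) • w₁ := funext hP
    rw [e1]
    have d1 := (((Real.hasDerivAt_cos s).const_add e).const_mul a).smul_const u₁
    have d2 := ((Real.hasDerivAt_sin s).const_mul (a*h)).smul_const w₁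
    have d3 := (d1.const_add F).add d2
    refine d3.congr_deriv ?_
    rw [mul_neg]
  have dQ : ∀ t : ℝ, HasDerivAt Q ((-(R * Real.sin t)) • u₂ + (R * Real.cos t) • w₂) t := by
    intro t
    have e1 : Q = fun t => F + (R * Real.cos t) • u₂ + (R * Real.sin t) • w₂ := funext hQ
    rw [e1]
    have d1 := ((Real.hasDerivAt_cos t).const_mul R).smul_const u₂
    have d2 := ((Real.hasDerivAt_sin t).const_mul R).smul_const w₂
    have d3 := (d1.const_add F).add d2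
    refine d3.congr_deriv ?_
    rw [mul_neg]
  set X : Set (EuclideanSpace ℝ (Fin 3) × EuclideanSpace ℝ (Fin 3)) := {x |
          ∃ s t : ℝ, x = (P s, Q t) ∧ deriv (fun σ : ℝ => ‖P σ - Q t‖ ^ 2) s = 0 ∧
            deriv (fun τ : ℝ => ‖P s - Q τ‖ ^ 2) t = 0} with hX
  have hsub : X ⊆ (fun q : ℝ × ℝ × ℝ × ℝ => (F + (a * (e + q.1)) • u₁ + (a * h * q.2.1) • w₁,
      F + (R * q.2.2.1) • u₂ + (R * q.2.2.2) • w₂)) ''
      DD (inner ℝ u₁ u₂) (inner ℝ w₁ u₂) (inner ℝ u₁ w₂) (inner ℝ w₁ w₂) e h (R/a) := by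
    rintro x ⟨s, t, hx, h1, h2⟩
    refine ⟨(Real.cos s, Real.sin s, Real.cos t, Real.sin t), ?_, by rw [hx, hP, hQ]⟩
    have g1 : HasDerivAt (fun σ : ℝ => ‖P σ - Q t‖ ^ 2) _ s := ((dP s).sub_const (Q t)).norm_sq
    have g2 : HasDerivAt (fun τ : ℝ => ‖P s - Q τ‖ ^ 2) _ t := ((dQ t).const_sub (P s)).norm_sq
    rw [g1.deriv] at h1
    rw [g2.deriv] at h2
    rw [hP, hQ, aux1 _ _ _ _ _ _ _ _ _ _ _ hu₁ hw₁ huw₁] at h1
    rw [hP, hQ, inner_neg_right, aux2 _ _ _ _ _ _ _ _ _ _ _ hu₂ hw₂ huw₂] at h2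
    show Sta _ _ _ _ _ _ _ (Real.cos s) (Real.sin s) (Real.cos t) (Real.sin t)
    refine ⟨Real.cos_sq_add_sin_sq s, Real.cos_sq_add_sin_sq t, ?_, ?_⟩
    · have ha0 : a ≠ 0 := ha.ne'
      have h3 : a^2*(-e*Real.sin s*(1+e*Real.cos s)) = a^2*(R/a*(Real.cos t*(-Real.sin s*inner ℝ u₁ u₂+h*Real.cos s*inner ℝ w₁ u₂)
          +Real.sin t*(-Real.sin s*inner ℝ u₁ w₂+h*Real.cos s*inner ℝ w₁ w₂))) := by
        have h4 : ∀ Y : ℝ, a^2*(R/a*Y) = a*R*Y := by intro Y; field_simp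
        rw [h4]
        linear_combination (1/2)*h1 - a^2*Real.sin s*Real.cos s*hh2
      exact mul_left_cancel₀ (by positivity) h3
    · have h3 : (a*R)*(-((e+Real.cos s)*inner ℝ u₁ u₂+h*Real.sin s*inner ℝ w₁ u₂)*Real.sin t
          + ((e+Real.cos s)*inner ℝ u₁ w₂+h*Real.sin s*inner ℝ w₁ w₂)*Real.cos t) = 0 := by
        linear_combination (-1/2)*h2
      exact (mul_eq_zero.1 h3).resolve_left (by positivity)
  have hle : X.encard ≤ 10 :=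
    (Set.encard_le_encard hsub).trans ((Set.encard_image_le _ _).trans hcore)
  have hfin : X.Finite := Set.finite_of_encard_le_coe (k := 10) (by exact_mod_cast hle)
  refine ⟨hfin, ?_⟩
  have h3 := hfin.cast_ncard_eq
  rw [← h3] at hle
  exact_mod_cast hle

end Pool.Agent.Results.MP_4e5648_mp.CircleEllipseTen
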